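import Pool.Agent.H23.Weave.Neg
import Pool.Agent.H23.Weave.Pos

/-!
# Minimal non-realizable weavings of `n` lines exist for every `n ≥ 4`

The weaving `cyclicWeaving n` lives on the tangent lines of the parabola `y = x ^ 2` at the points
of abscissa `0, 1, ..., n - 1`; line `i` is above line `j > i` if `i, j` are cyclically
consecutive modulo `n`, and below it otherwise.  Dually this is a convex polygon all of whose
sides are asked to contract while all the diagonals expand.
-/

namespace Pool.Agent.Results.MP_560143_co.MinimalWeavings

open Pool.Agent.H23.Weave

/-- For every `n ≥ 4` the weaving `cyclicWeaving n` of `n` lines is not weakly realizable, but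
the deletion of any one of its lines leaves a realizable weaving. -/
theorem result (n : ℕ) (hn : 4 ≤ n) :
    ¬ (cyclicWeaving n).WeaklyRealizable ∧
      ∀ ℓ : Fin n, ((cyclicWeaving n).delete ℓ).Realizable :=
  ⟨cyclic_not_weak n hn, cyclic_delete_realizable n hn⟩

end Pool.Agent.Results.MP_560143_co.MinimalWeavings
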